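import Pool.Agent.Helper30.UB.St

/-!
# Project UB, module ONE
-/

set_option autoImplicit false

namespace Pool.Agent.Helper74.UB

open Polynomial Finset Pool.Agent.Helper15.FC Pool.Agent.Helper30.UB

private theorem mem_Ml {F : Type} [Field F] [Fintype F] {m : ℕ} {f : F[X]} :
    f ∈ Ml F m ↔ f.Monic ∧ f.natDegree ≤ m := by
  classical
  unfold Ml
  rw [mem_biUnion]
  constructor
  · rintro ⟨i, hi, h⟩
    have := mem_Mn.1 h
    rw [mem_range] at hi
    exact ⟨this.1, by omega⟩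
  · rintro ⟨h1, h2⟩
    exact ⟨f.natDegree, mem_range.2 (by omega), mem_Mn.2 ⟨h1, rfl⟩⟩

private theorem ch (i k : ℕ) : Nat.choose (i + k) k ≤ (i + 1) ^ k := by
  induction k with
  | zero => simp
  | succ k ih =>
    have h := Nat.add_one_mul_choose_eq (i + k) k
    have h' : Nat.choose (i + (k + 1)) (k + 1) * (k + 1) ≤ (i + 1) ^ (k + 1) * (k + 1) := by
      calc Nat.choose (i + (k + 1)) (k + 1) * (k + 1) = (i + k + 1) * Nat.choose (i + k) k := by
            rw [← add_assoc]; exact h.symm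
        _ ≤ (i + k + 1) * (i + 1) ^ k := Nat.mul_le_mul_left _ ih
        _ ≤ ((i + 1) * (k + 1)) * (i + 1) ^ k := Nat.mul_le_mul_right _ (by nlinarith)
        _ = _ := by ring
    exact Nat.le_of_mul_le_mul_right h' (by omega)

private theorem sumch (k L : ℕ) :
    ∑ i ∈ range (L + 1), (Nat.choose (i + k - 1) i : ℝ) ≤ ((L : ℝ) + 1) ^ k := by
  cases k with
  | zero =>
    rw [sum_eq_single 0]
    · simp
    · intro b _ hb
      rw [Nat.choose_eq_zero_of_lt (by omega)]
      simp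
    · intro h
      exact absurd (mem_range.2 (by omega)) h
  | succ k =>
    have h1 : ∀ i ∈ range (L + 1), (Nat.choose (i + (k + 1) - 1) i : ℝ) ≤ ((L : ℝ) + 1) ^ k := by
      intro i hi
      rw [mem_range] at hi
      have e : i + (k + 1) - 1 = i + k := by omega
      rw [e, Nat.choose_symm_add]
      have h2 : Nat.choose (i + k) k ≤ (L + 1) ^ k :=
        (ch i k).trans (Nat.pow_le_pow_left (by omega) k)
      exact_mod_cast h2
    calc _ ≤ ∑ i ∈ range (L + 1), ((L : ℝ) + 1) ^ k := sum_le_sum h1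
      _ = _ := by
        rw [sum_const, card_range, nsmul_eq_mul]
        push_cast
        ring

private theorem qpos (F : Type) [Field F] [Fintype F] : (0 : ℝ) < qr F :=
  Nat.cast_pos.2 Fintype.card_pos

private theorem sumMl {F : Type} [Field F] [Fintype F] (hE : StDKE) (k L : ℕ) :
    ∑ V ∈ Ml F L, (dk k V : ℝ) / qr F ^ V.natDegree ≤ ((L : ℝ) + 1) ^ k := by
  classical
  have e : ∑ V ∈ Ml F L, (dk k V : ℝ) / qr F ^ V.natDegree =
      ∑ i ∈ range (L + 1), ∑ V ∈ Mn F i, (dk k V : ℝ) / qr F ^ V.natDegree := by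
    unfold Ml
    apply sum_biUnion
    intro i _ j _ hij
    rw [Function.onFun, Finset.disjoint_left]
    intro V h1 h2
    exact hij ((mem_Mn.1 h1).2.symm.trans (mem_Mn.1 h2).2)
  rw [e]
  refine le_trans (le_of_eq ?_) (sumch k L)
  apply sum_congr rfl
  intro i _
  have h := hE F k i
  have h2 : ∑ V ∈ Mn F i, (dk k V : ℝ) / qr F ^ V.natDegree =
      (∑ V ∈ Mn F i, (dk k V : ℝ)) / qr F ^ i := by
    rw [sum_div]
    apply sum_congr rfl
    intro V hV
    rw [(mem_Mn.1 hV).2]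
  have hq := qpos F
  rw [h2, ← Nat.cast_sum, h]
  push_cast
  field_simp

theorem hONE (hE : StDKE) (hS : StDKS) (hT : StDKT) (hL : StLCM) : StONE := by
  classical
  intro F _ _ k L P g hP hg hc
  have hq := qpos F
  obtain ⟨c, hcdef⟩ : ∃ c : ℝ, c = (dk k g : ℝ) / (qr F ^ g.natDegree * qr F ^ P.natDegree) :=
    ⟨_, rfl⟩
  have hc0 : 0 ≤ c := by rw [hcdef]; positivity
  have hterm : ∀ U ∈ (Ml F L).filter (fun U => g ∣ U),
      (dk k U : ℝ) / qr F ^ (lc U P).natDegree ≤
        ∑ G ∈ Dv P, ∑ V ∈ Ml F L,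
          if g * G * V = U then c * ((dk k G : ℝ) * ((dk k V : ℝ) / qr F ^ V.natDegree)) else 0 := by
    intro U hU
    rw [mem_filter, mem_Ml] at hU
    obtain ⟨⟨hU1, hU2⟩, U', rfl⟩ := hU
    have hU' : U'.Monic := hg.of_mul_monic_left hU1
    obtain ⟨-, -, G, hG1, hG2, hG3, hG4⟩ := hL F (g * U') P hU1 hP
    have hcop : IsCoprime G g := (hc.of_isCoprime_of_dvd_right hG3).symm
    obtain ⟨V, rfl⟩ := hcop.dvd_of_dvd_mul_left hG2
    have hV : V.Monic := hG1.of_mul_monic_left hU'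
    have d1 : (g * (G * V)).natDegree = g.natDegree + (G.natDegree + V.natDegree) := by
      rw [hg.natDegree_mul hU', hG1.natDegree_mul hV]
    have d2 : (lc (g * (G * V)) P).natDegree = g.natDegree + V.natDegree + P.natDegree := by
      omega
    have k1 : dk k (g * (G * V)) ≤ dk k g * (dk k G * dk k V) :=
      ((hS F k).1 g (G * V) hg hU').trans (Nat.mul_le_mul_left _ ((hS F k).1 G V hG1 hV))
    have k2 : (dk k (g * (G * V)) : ℝ) / qr F ^ (lc (g * (G * V)) P).natDegree ≤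
        c * ((dk k G : ℝ) * ((dk k V : ℝ) / qr F ^ V.natDegree)) := by
      rw [d2, hcdef]
      have k3 : (dk k (g * (G * V)) : ℝ) ≤ (dk k g : ℝ) * ((dk k G : ℝ) * (dk k V : ℝ)) := by
        exact_mod_cast k1
      calc (dk k (g * (G * V)) : ℝ) / qr F ^ (g.natDegree + V.natDegree + P.natDegree) ≤
          ((dk k g : ℝ) * ((dk k G : ℝ) * (dk k V : ℝ))) /
            qr F ^ (g.natDegree + V.natDegree + P.natDegree) := by gcongr
        _ = _ := by
          rw [pow_add, pow_add]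
          field_simp
    have hGm : G ∈ Dv P := (mem_Dv hP.ne_zero).2 ⟨hG1, hG3⟩
    have hVm : V ∈ Ml F L := mem_Ml.2 ⟨hV, by omega⟩
    have nn : ∀ G' ∈ Dv P, ∀ V' ∈ Ml F L, (0 : ℝ) ≤ if g * G' * V' = g * (G * V) then
        c * ((dk k G' : ℝ) * ((dk k V' : ℝ) / qr F ^ V'.natDegree)) else 0 := by
      intro G' _ V' _
      split_ifs
      · positivity
      · exact le_rfl
    refine k2.trans ?_
    have s1 := single_le_sum (nn G hGm) hVm
    rw [if_pos (mul_assoc g G V)] at s1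
    refine s1.trans ?_
    exact single_le_sum (f := fun G' => ∑ V' ∈ Ml F L, if g * G' * V' = g * (G * V) then
        c * ((dk k G' : ℝ) * ((dk k V' : ℝ) / qr F ^ V'.natDegree)) else 0)
      (fun G' hG' => sum_nonneg (nn G' hG')) hGm
  calc _ ≤ ∑ U ∈ (Ml F L).filter (fun U => g ∣ U), ∑ G ∈ Dv P, ∑ V ∈ Ml F L,
          (if g * G * V = U then c * ((dk k G : ℝ) * ((dk k V : ℝ) / qr F ^ V.natDegree)) else 0) :=
        sum_le_sum hterm
    _ = ∑ G ∈ Dv P, ∑ V ∈ Ml F L, ∑ U ∈ (Ml F L).filter (fun U => g ∣ U),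
          (if g * G * V = U then c * ((dk k G : ℝ) * ((dk k V : ℝ) / qr F ^ V.natDegree)) else 0) := by
        rw [sum_comm]
        apply sum_congr rfl
        intro G _
        rw [sum_comm]
    _ ≤ ∑ G ∈ Dv P, ∑ V ∈ Ml F L, c * ((dk k G : ℝ) * ((dk k V : ℝ) / qr F ^ V.natDegree)) := by
        refine sum_le_sum fun G _ => sum_le_sum fun V _ => ?_
        rw [sum_ite_eq]
        split_ifs
        · exact le_rfl
        · positivity
    _ = c * (∑ G ∈ Dv P, (dk k G : ℝ)) * ∑ V ∈ Ml F L, (dk k V : ℝ) / qr F ^ V.natDegree := by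
        rw [mul_assoc, sum_mul_sum, mul_sum]
        apply sum_congr rfl
        intro G _
        rw [mul_sum]
    _ ≤ c * (∑ G ∈ Dv P, (dk k G : ℝ)) * ((L : ℝ) + 1) ^ k := by
        apply mul_le_mul_of_nonneg_left (sumMl hE k L)
        positivity
    _ = _ := by
        rw [← Nat.cast_sum, ← (hT F).1 k P hP, hcdef]
        field_simp

end Pool.Agent.Helper74.UB
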